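import Pool.Agent.H.MP_43e44c_ag.AB.Main

/-!
The proportion of the CM types of an abelian CM field whose Hodge rings are not generated by divisor
classes, up to a constant factor.
-/

set_option autoImplicit false

open NumberField Module Pool.MP43e44c

namespace Pool.Agent.Results.MP_43e44c_ag.AbelianFields

/-- The imaginary quadratic subfields `F` of the CM field `K` with `[K : F]` even. -/
def quadraticSubfields (K : Type*) [Field K] [NumberField K] : Set (IntermediateField ℚ K) :=
  {F | finrank ℚ F = 2 ∧ (∃ x ∈ F, x ∉ maximalRealSubfield K) ∧ Even (finrank F K)}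

/-- The non-real cyclic subfields `F` of the CM field `K` of degree four with `[K : F]` even, and
those of degree six. -/
def quarticSexticSubfields (K : Type*) [Field K] [NumberField K] :
    Set (IntermediateField ℚ K) :=
  {F | IsCyclic (F ≃ₐ[ℚ] F) ∧ (∃ x ∈ F, x ∉ maximalRealSubfield K) ∧
    (finrank ℚ F = 4 ∧ Even (finrank F K) ∨ finrank ℚ F = 6)}

/-- The CM types `Φ` of `K` such that for some `k, p` some rational Hodge class of degree `2 p` on
`A_Φ^k` is not a rational combination of products of divisor classes. -/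
def exoticTypes (K : Type*) [Field K] [NumberField K] : Set (Finset (K →+* ℂ)) :=
  {Φ | IsCMType Φ ∧ ¬ HodgeRingGeneratedByDivisors Φ}

/-- There are absolute constants `c, C > 0` such that the following holds for every abelian CM field
`K` of degree `2 n`.  Let `s` be the number of imaginary quadratic subfields `F` of `K` with `[K : F]`
even, `t` the number of non-real cyclic subfields `F` of degree `4` with `[K : F]` even or of degree
`6`, and `B` the number of CM types `Φ` of `K` such that for some `k, p` some rational Hodge class of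
degree `2 p` on `A_Φ^k` is not a rational combination of products of divisor classes.  Then
`B ≤ C (s / √n + (t + 1) / n) 2 ^ n`, and `B ≥ c min (1, s / √n + t / n) 2 ^ n` if `n ≥ C`. -/
theorem result : ∃ c C : ℝ, 0 < c ∧ 0 < C ∧ ∀ {K : Type*} [Field K] [NumberField K] [IsCMField K]
    [IsAbelianGalois ℚ K] {n : ℕ}, finrank ℚ K = 2 * n →
    ((exoticTypes K).ncard : ℝ) ≤ C * ((quadraticSubfields K).ncard / √n +
        ((quarticSexticSubfields K).ncard + 1) / n) * 2 ^ n ∧
      (C ≤ n → c * min 1 ((quadraticSubfields K).ncard / √n +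
        (quarticSexticSubfields K).ncard / n) * 2 ^ n ≤ ((exoticTypes K).ncard : ℝ)) := by
  classical
  obtain ⟨C₀, hC₀, hup⟩ := ab_upper
  refine ⟨1 / 62208, 648 + C₀, by norm_num, by linarith, ?_⟩
  intro K _ _ _ _ n hn
  obtain ⟨s, hs⟩ : ∃ s, s = (quadraticSubfields K).ncard := ⟨_, rfl⟩
  obtain ⟨t, ht⟩ : ∃ t, t = (quarticSexticSubfields K).ncard := ⟨_, rfl⟩
  rw [← hs, ← ht]
  have hreal : ∀ F : IntermediateField ℚ K, (∃ x ∈ F, x ∉ maximalRealSubfield K) ↔
      ∃ x ∈ F, ∃ φ : K →+* ℂ, (φ x).im ≠ 0 := by
    intro F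
    have h1 : ∀ x : K, x ∉ maximalRealSubfield K ↔ ∃ φ : K →+* ℂ, (φ x).im ≠ 0 := by
      intro x
      rw [mem_maximalRealSubfield_iff]
      push Not
      refine exists_congr fun φ => ?_
      rw [Ne, Ne, ← Complex.conj_eq_iff_im]
      rfl
    simp only [h1]
  have hs' : s = (evenImagQuadratic K).ncard := by
    rw [hs]
    unfold evenImagQuadratic quadraticSubfields
    simp only [hreal]
  have ht' : t = (fourSix K).ncard := by
    rw [ht]
    unfold fourSix quarticSexticSubfields
    simp only [hreal]
  have hn0 : 0 < n := by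
    have := finrank_pos (R := ℚ) (M := K)
    omega
  have hnR : (0 : ℝ) < n := by exact_mod_cast hn0
  have hsq : 0 < √(n : ℝ) := Real.sqrt_pos.2 hnR
  constructor
  · have htypes : ({Φ : Finset (K →+* ℂ) | IsCMType Φ}.ncard : ℝ) ≤ 2 ^ n := by
      have h1 := card_half_systems_le (c := (ComplexEmbedding.conjugate : (K →+* ℂ) → (K →+* ℂ)))
        conj_conj (by
          intro φ h2
          exact IsTotallyComplex.complexEmbedding_not_isReal φ
            (ComplexEmbedding.isReal_iff.2 h2)) (N := n)
        (by rw [Nat.card_eq_fintype_card, Embeddings.card, hn])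
        {Φ : Finset (K →+* ℂ) | IsCMType Φ} (fun Φ hΦ => hΦ)
      exact_mod_cast h1
    have h2 := hup K
    rw [← hs', ← ht', hn] at h2
    refine h2.trans ?_
    have h3 : ((2 * n : ℕ) : ℝ) = 2 * n := by push_cast; ring
    rw [h3]
    have h4 : (2 * (n : ℝ)) / 2 = n := by ring
    rw [h4]
    have h5 : (s : ℝ) * (1 / √n) + t * (6 / (2 * n)) + C₀ / (2 * n)
        ≤ (648 + C₀) * (s / √n + (t + 1) / n) := by
      have e1 : (s : ℝ) * (1 / √n) = s / √n := by ring
      have e2 : (t : ℝ) * (6 / (2 * n)) = 3 * (t / n) := by field_simp; ring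
      have e3 : C₀ / (2 * n) = C₀ / 2 * (1 / n) := by field_simp
      rw [e1, e2, e3, add_div]
      have p1 : 0 ≤ (s : ℝ) / √n := by positivity
      have p2 : 0 ≤ (t : ℝ) / n := by positivity
      have p3 : 0 ≤ 1 / (n : ℝ) := by positivity
      have q1 := mul_nonneg hC₀ p1
      have q2 := mul_nonneg hC₀ p2
      have q3 := mul_nonneg hC₀ p3
      nlinarith
    have h6 : 0 ≤ (s : ℝ) * (1 / √n) + t * (6 / (2 * n)) + C₀ / (2 * n) := by positivity
    calc _ ≤ ((s : ℝ) * (1 / √n) + t * (6 / (2 * n)) + C₀ / (2 * n)) * 2 ^ n :=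
          mul_le_mul_of_nonneg_left htypes h6
      _ ≤ _ := mul_le_mul_of_nonneg_right h5 (by positivity)
  · intro hC
    have h648 : 648 ≤ n := by
      have : (648 : ℝ) ≤ n := by linarith
      exact_mod_cast this
    have h1 := ab_lower hn h648
    rw [← hs', ← ht'] at h1
    exact h1

end Pool.Agent.Results.MP_43e44c_ag.AbelianFields
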