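import Pool.Agent.H.MP_43e44c_ag.Final

/-!
Abelian CM fields: for almost all CM types `Φ` the Hodge rings of all powers of the CM abelian
variety `A_Φ` are generated by divisor classes.
-/

set_option autoImplicit false

open NumberField Module Pool.MP43e44c

namespace Pool.MP43e44c.Variants.AlmostAllCMTypes

theorem result (r : ℕ) : ∃ C : ℝ, ∀ (K : Type) [Field K] [NumberField K] [IsAbelianGalois ℚ K]
    (s : Fin r → (K ≃ₐ[ℚ] K)), Subgroup.closure (Set.range s) = ⊤ →
    ({Φ : Finset (K →+* ℂ) | IsCMType Φ ∧ ¬ HodgeRingGeneratedByDivisors Φ}.ncard : ℝ)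
      ≤ ((evenImagQuadratic K).ncard *
            (((finrank ℚ K / 2).choose (finrank ℚ K / 4) : ℝ) / 2 ^ (finrank ℚ K / 2))
          + C / finrank ℚ K) *
        ({Φ : Finset (K →+* ℂ) | IsCMType Φ}.ncard : ℝ) := by
  obtain ⟨C, hC⟩ := sum_le r
  exact ⟨C, fun K _ _ _ s hs => (main_bound K).trans
    (mul_le_mul_of_nonneg_right (hC K s hs) (Nat.cast_nonneg _))⟩

end Pool.MP43e44c.Variants.AlmostAllCMTypes
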