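import Pool.Agent.H.MP_43e44c_ag.Count2

/-!
Almost all CM types of CM fields with large Galois closure over that of the real subfield.
-/

set_option autoImplicit false

open NumberField Module Pool.MP43e44c

namespace Pool.Agent.Results.MP_43e44c_ag.ClassCount

/-- Let `K` be a CM field of degree `2 b c` with maximal real subfield `K₀`, `θ ∈ K` purely
imaginary and `2 b` the number of embeddings `φ` of `K` such that `φ(θ) χ(θ)` lies in the Galois
closure of `K₀`.  Then the Galois closure of `K` has degree at most `2 ^ c` over that of `K₀`, and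
the proportion of CM types `Φ` of `K` such that the Hodge ring of some power of `A_Φ` is not
generated by divisor classes is at most `2 b / 4 ^ c + 2 / 2 ^ c`, and at most `2 b / 4 ^ c` if the
discriminant of `K` is not a square. -/
theorem result {K : Type*} [Field K] [NumberField K] [IsCMField K] {b c : ℕ}
    (hK : finrank ℚ K = 2 * (b * c)) {θ : K} (hθ0 : θ ≠ 0)
    (hθ : IsCMField.complexConj K θ = -θ) (χ : K →+* ℂ)
    (hcl : {φ : K →+* ℂ | φ θ * χ θ ∈
      IntermediateField.normalClosure ℚ (maximalRealSubfield K) ℂ}.ncard = 2 * b) :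
    finrank ℚ (IntermediateField.normalClosure ℚ K ℂ) ≤
        2 ^ c * finrank ℚ (IntermediateField.normalClosure ℚ (maximalRealSubfield K) ℂ) ∧
    {Φ : Finset (K →+* ℂ) | IsCMType Φ ∧ ¬ HodgeRingGeneratedByDivisors Φ}.ncard * 4 ^ c
        ≤ 2 ^ (b * c + 1) * (b + 2 ^ c) ∧
    (¬ IsSquare (discr K) →
      {Φ : Finset (K →+* ℂ) | IsCMType Φ ∧ ¬ HodgeRingGeneratedByDivisors Φ}.ncard * 4 ^ c
        ≤ 2 ^ (b * c + 1) * b) :=
  class_count hK hθ0 hθ χ hcl

end Pool.Agent.Results.MP_43e44c_ag.ClassCount
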