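import Pool.Agent.H.MP_43e44c_ag.MQ.CMr
import Pool.Agent.H.MP_43e44c_ag.PS.CMA

/-!
Almost all CM types of all CM fields with few Galois orbits on pairs of embeddings, and of all CM
fields which are not Galois and have only small CM subfields.
-/

set_option autoImplicit false

open NumberField Module Pool.MP43e44c

namespace Pool.Agent.Results.MP_43e44c_ag.FewOrbits

/-- There is an absolute constant `C` such that for every CM field `K` of degree `2 n` the number
of CM types `Φ` of `K` such that the Hodge ring of some power of `A_Φ` is not generated by divisor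
classes is at most `C D^(3/2) (log n / n)^(1/2) 2 ^ n`, where `D` is a positive integer such that
(a) the minimal polynomial over `ℚ` of a generator of `K` has at most `D` irreducible factors over
`K` (counted with multiplicity), or (b) `K` is not Galois over `ℚ` and all proper subfields of `K` which are not
contained in the maximal real subfield have degree at most `D`. -/
theorem result : ∃ C : ℝ, ∀ {K : Type*} [Field K] [NumberField K] [IsCMField K] {n D : ℕ},
    finrank ℚ K = 2 * n → 0 < D →
    ((∃ α : K, IntermediateField.adjoin ℚ {α} = ⊤ ∧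
        (UniqueFactorizationMonoid.factors
          ((minpoly ℚ α).map (algebraMap ℚ K))).card ≤ D) ∨
      (¬ IsGalois ℚ K ∧ ∀ F : IntermediateField ℚ K, F ≠ ⊤ →
        (¬ ∀ x ∈ F, x ∈ maximalRealSubfield K) → finrank ℚ F ≤ D)) →
    ({Φ : Finset (K →+* ℂ) | IsCMType Φ ∧ ¬ HodgeRingGeneratedByDivisors Φ}.ncard : ℝ)
      ≤ C * ((D : ℝ) * Real.sqrt D * Real.sqrt (Real.log n / n)) * 2 ^ n := by
  obtain ⟨C, hC, hr⟩ := few_count
  refine ⟨max C (2 + 2 * C₆ + 3 * C₅ + C₃), ?_⟩
  rintro K _ _ _ n D hn hD (⟨α, hα, hα'⟩ | ⟨hG, hF⟩)
  · refine (hr hn hα rfl).trans ?_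
    have h1 : ((UniqueFactorizationMonoid.factors
        ((minpoly ℚ α).map (algebraMap ℚ K))).card : ℝ) ≤ D := by exact_mod_cast hα'
    gcongr
    exact le_max_left _ _
  · refine (nonGalois_count hn hG hD hF).trans ?_
    gcongr
    exact le_max_right _ _

end Pool.Agent.Results.MP_43e44c_ag.FewOrbits
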