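import Pool.Agent.H.MP_43e44c_ag.GF.Main
import Pool.Agent.H.MP_43e44c_ag.MD.AsmA
import Pool.Agent.H.MP_43e44c_ag.MD.AsmB

/-!
The proportion of the CM types of a Galois CM field whose Hodge rings are not generated by divisor
classes, up to a constant factor and a power saving error.
-/

set_option autoImplicit false

open NumberField Module Pool.MP43e44c

namespace Pool.Agent.Results.MP_43e44c_ag.GaloisFields

/-- The imaginary quadratic subfields `F` of the CM field `K` with `[K : F]` even. -/
def quadraticSubfields (K : Type*) [Field K] [NumberField K] : Set (IntermediateField ℚ K) :=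
  {F | finrank ℚ F = 2 ∧ (∃ x ∈ F, x ∉ maximalRealSubfield K) ∧ Even (finrank F K)}

/-- The non-real subfields `F` of the CM field `K` which are cyclic over the rationals, of degree four
with `[K : F]` even, or of degree six. -/
def cyclicSubfields (K : Type*) [Field K] [NumberField K] : Set (IntermediateField ℚ K) :=
  {F | IsGalois ℚ F ∧ IsCyclic (F ≃ₐ[ℚ] F) ∧ (∃ x ∈ F, x ∉ maximalRealSubfield K) ∧
    (finrank ℚ F = 4 ∧ Even (finrank F K) ∨ finrank ℚ F = 6)}

/-- The non-real subfields `F` of the CM field `K` which are Galois over the rationals with dihedral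
Galois group of order eight or twelve. -/
def dihedralSubfields (K : Type*) [Field K] [NumberField K] : Set (IntermediateField ℚ K) :=
  {F | IsGalois ℚ F ∧ (∃ x ∈ F, x ∉ maximalRealSubfield K) ∧
    (Nonempty ((F ≃ₐ[ℚ] F) ≃* DihedralGroup 4) ∨ Nonempty ((F ≃ₐ[ℚ] F) ≃* DihedralGroup 6))}

/-- The CM types `Φ` of `K` such that for some `k, p` some rational Hodge class of degree `2 p` on
`A_Φ^k` is not a rational combination of products of divisor classes. -/
def exoticTypes (K : Type*) [Field K] [NumberField K] : Set (Finset (K →+* ℂ)) :=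
  {Φ | IsCMType Φ ∧ ¬ HodgeRingGeneratedByDivisors Φ}

/-- The sum `q₂ / √n + q₄₆ / n + q_D log n / n` over the subfields. -/
noncomputable def S (K : Type*) [Field K] [NumberField K] (n : ℕ) : ℝ :=
  (quadraticSubfields K).ncard / √n + (cyclicSubfields K).ncard / n +
    (dihedralSubfields K).ncard * Real.log n / n

/-- There are absolute constants `c, C > 0` such that the following holds for every CM field `K` of degree
`2 n` which is Galois over the rationals.  Let `B` be the number of CM types `Φ` of `K` such that for some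
`k, p` some rational Hodge class of degree `2 p` on `A_Φ^k` is not a rational combination of products of
divisor classes, and `S = q₂ / √n + q₄₆ / n + q_D log n / n`, where `q₂` is the number of imaginary
quadratic subfields `F` with `[K : F]` even, `q₄₆` the number of non-real cyclic subfields of degree four
with `[K : F]` even or of degree six, and `q_D` the number of non-real Galois subfields with dihedral
group of order eight or twelve.  Then `B ≤ C (S + n ^ (-c)) 2 ^ n`, and `B ≥ c min (1, S) 2 ^ n` if
`n ≥ C`. -/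
theorem result.{u} : ∃ c C : ℝ, 0 < c ∧ 0 < C ∧
    ∀ {K : Type u} [Field K] [NumberField K] [IsCMField K] [IsGalois ℚ K] {n : ℕ},
    finrank ℚ K = 2 * n →
    ((exoticTypes K).ncard : ℝ) ≤ C * (S K n + (n : ℝ) ^ (-c)) * 2 ^ n ∧
      (C ≤ n → c * min 1 (S K n) * 2 ^ n ≤ ((exoticTypes K).ncard : ℝ)) := by
  obtain ⟨C, c, hC, hc, hup⟩ := GU.gal_upper.{u} MD.thmA MD.thmB
  obtain ⟨c₀, hc₀, n₀, hlow⟩ := GL.gal_lower.{u}
  refine ⟨min c c₀, C + n₀ + 1, lt_min hc hc₀, by positivity, ?_⟩
  intro K _ _ _ _ n hK
  have hn0 : 0 < n := by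
    have := finrank_pos (R := ℚ) (M := K)
    omega
  have hnR : (1 : ℝ) ≤ n := by exact_mod_cast hn0
  have hS : S K n = ∑ k, (GL.GCnt K n k).ncard * GL.al k n := GF.sum_eq hK
  have h2n : (0 : ℝ) < 2 ^ n := by positivity
  have hSpos : 0 ≤ S K n := by
    unfold S
    have hlog : 0 ≤ Real.log n := Real.log_nonneg hnR
    positivity
  constructor
  · have h1 := hup hK
    rw [← hS] at h1
    refine h1.trans ?_
    apply mul_le_mul_of_nonneg_right _ h2n.le
    have h3 : (n : ℝ) ^ (-c) ≤ (n : ℝ) ^ (-(min c c₀)) :=
      Real.rpow_le_rpow_of_exponent_le hnR (neg_le_neg (min_le_left _ _))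
    have h4 : 0 ≤ (n : ℝ) ^ (-c) := Real.rpow_nonneg (by linarith) _
    have h5 : (0 : ℝ) ≤ n₀ := Nat.cast_nonneg _
    have h6 : 0 ≤ S K n + (n : ℝ) ^ (-c) := by linarith
    calc C * (S K n + (n : ℝ) ^ (-c)) ≤ (C + n₀ + 1) * (S K n + (n : ℝ) ^ (-c)) :=
          mul_le_mul_of_nonneg_right (by linarith) h6
      _ ≤ (C + n₀ + 1) * (S K n + (n : ℝ) ^ (-(min c c₀))) :=
          mul_le_mul_of_nonneg_left (by linarith) (by positivity)
  · intro hCn
    have hn : n₀ ≤ n := by
      have : (n₀ : ℝ) ≤ n := by linarith
      exact_mod_cast this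
    have h1 := hlow hK hn
    rw [← hS] at h1
    refine le_trans ?_ h1
    apply mul_le_mul_of_nonneg_right _ h2n.le
    apply mul_le_mul_of_nonneg_right (min_le_right _ _)
    exact le_min zero_le_one hSpos

end Pool.Agent.Results.MP_43e44c_ag.GaloisFields
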