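import Pool.Agent.H.MP_43e44c_ag.SB.CM2

/-!
Almost all CM types of all CM fields whose Galois closure has degree at least four over that of
the real subfield and which have few quartic CM subfields.
-/

set_option autoImplicit false

open NumberField Module Pool.MP43e44c

namespace Pool.Agent.Results.MP_43e44c_ag.LargeClosure

/-- There is an absolute constant `C` as follows.  Let `K` be a CM field with maximal real subfield
`K₀`, and let `B` be the number of CM types `Φ` of `K` such that the Hodge ring of some power of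
`A_Φ` is not generated by divisor classes.
(1) Let `K` have degree `2 n` and let `[L : L₀]` be the degree of the Galois closure of `K` over
that of `K₀`.  If `[L : L₀] > 4`, then `B ≤ C (log n / n)^(1/2) 2 ^ n`.  If `[L : L₀] ≥ 4` and `s` is
the number of subfields of `K` of degree four which are not real, then
`B ≤ C (s / n + (log n / n)^(1/2)) 2 ^ n`.
(2) More precisely, let `K` have degree `2 b c`, let `θ ∈ K` be purely imaginary and `2 b` the
number of embeddings `φ` of `K` such that `φ(θ) χ(θ)` lies in the Galois closure of `K₀`.  Then the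
Galois closure of `K` has degree at most `2 ^ c` over that of `K₀`, and `B` is at most
`2 b / 4 ^ c + 2 / 2 ^ c` times the number of all CM types, at most `2 b / 4 ^ c` times it if the
discriminant of `K` is not a square, and at most `C / b^(1/2)` times it if `c ≥ 3`. -/
theorem result : ∃ C : ℝ,
    (∀ {K : Type*} [Field K] [NumberField K] [IsCMField K] {n : ℕ}, finrank ℚ K = 2 * n →
      (4 * finrank ℚ (IntermediateField.normalClosure ℚ (maximalRealSubfield K) ℂ)
        < finrank ℚ (IntermediateField.normalClosure ℚ K ℂ) →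
      ({Φ : Finset (K →+* ℂ) | IsCMType Φ ∧ ¬ HodgeRingGeneratedByDivisors Φ}.ncard : ℝ)
        ≤ C * Real.sqrt (Real.log n / n) * 2 ^ n) ∧
      (4 * finrank ℚ (IntermediateField.normalClosure ℚ (maximalRealSubfield K) ℂ)
        ≤ finrank ℚ (IntermediateField.normalClosure ℚ K ℂ) →
      ({Φ : Finset (K →+* ℂ) | IsCMType Φ ∧ ¬ HodgeRingGeneratedByDivisors Φ}.ncard : ℝ)
        ≤ C * (({F : IntermediateField ℚ K | finrank ℚ F = 4 ∧
          ¬ ∀ x ∈ F, x ∈ maximalRealSubfield K}.ncard : ℝ) / n + Real.sqrt (Real.log n / n))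
          * 2 ^ n)) ∧
    (∀ {K : Type*} [Field K] [NumberField K] [IsCMField K] {b c : ℕ}
      (_ : finrank ℚ K = 2 * (b * c)) {θ : K} (_ : θ ≠ 0)
      (_ : IsCMField.complexConj K θ = -θ) (χ : K →+* ℂ)
      (_ : {φ : K →+* ℂ | φ θ * χ θ ∈
        IntermediateField.normalClosure ℚ (maximalRealSubfield K) ℂ}.ncard = 2 * b),
      finrank ℚ (IntermediateField.normalClosure ℚ K ℂ) ≤
        2 ^ c * finrank ℚ (IntermediateField.normalClosure ℚ (maximalRealSubfield K) ℂ) ∧
      {Φ : Finset (K →+* ℂ) | IsCMType Φ ∧ ¬ HodgeRingGeneratedByDivisors Φ}.ncard * 4 ^ c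
        ≤ 2 ^ (b * c + 1) * (b + 2 ^ c) ∧
      (¬ IsSquare (discr K) →
        {Φ : Finset (K →+* ℂ) | IsCMType Φ ∧ ¬ HodgeRingGeneratedByDivisors Φ}.ncard * 4 ^ c
          ≤ 2 ^ (b * c + 1) * b) ∧
      (3 ≤ c →
        ({Φ : Finset (K →+* ℂ) | IsCMType Φ ∧ ¬ HodgeRingGeneratedByDivisors Φ}.ncard : ℝ)
          * Real.sqrt b ≤ C * 2 ^ (b * c))) := by
  obtain ⟨C, hC⟩ := uniform_count
  obtain ⟨C', hC'⟩ := uniform_count2
  refine ⟨max (max C C') C₁, fun {K} _ _ _ n hn => ⟨fun hL => ?_, fun hL => ?_⟩, ?_⟩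
  · refine (hC hn hL).trans ?_
    gcongr
    exact (le_max_left _ _).trans (le_max_left _ _)
  · refine (hC' hn hL).trans ?_
    gcongr
    exact (le_max_right _ _).trans (le_max_left _ _)
  · intro K _ _ _ b c hK θ hθ0 hθ χ hb
    obtain ⟨h1, h2, h3⟩ := class_count hK hθ0 hθ χ hb
    refine ⟨h1, h2, h3, fun hc => (class_count3 hK hθ0 hθ χ hb hc).trans ?_⟩
    gcongr
    exact le_max_right _ _

end Pool.Agent.Results.MP_43e44c_ag.LargeClosure
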