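import Pool.Agent.H.MP_43e44c_ag.Count2

/-!
CM fields whose degree has a large prime factor: almost all CM types.
-/

set_option autoImplicit false

open NumberField Module Pool.MP43e44c

namespace Pool.Agent.Results.MP_43e44c_ag.LargePrimeFactor

/-- Let `K` be any CM field, `E` any real subfield of degree `r` with `[K : E] = 2 m ℓ ^ k`, `ℓ` an
odd prime, `k ≥ 1`.  The proportion of CM types `Φ` of `K` such that the Hodge ring of some power
of `A_Φ` is not generated by divisor classes is at most `r (2 m) ^ ((m + 1) / 2) / (2 √ℓ)`. -/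
theorem result {K : Type*} [Field K] [NumberField K] [IsCMField K] {r m ℓ k : ℕ} (hℓ : ℓ.Prime)
    (hodd : ℓ ≠ 2) (hk : k ≠ 0) (E : IntermediateField ℚ K)
    (hE : ∀ x ∈ E, x ∈ maximalRealSubfield K) (hr : finrank ℚ E = r)
    (hm : finrank E K = 2 * (m * ℓ ^ k)) :
    {Φ : Finset (K →+* ℂ) | IsCMType Φ ∧ ¬ HodgeRingGeneratedByDivisors Φ}.ncard ^ 2 * (4 * ℓ)
      ≤ r ^ 2 * (2 * m) ^ (m + 1) * 4 ^ (r * (m * ℓ ^ k)) :=
  large_prime_count hℓ hodd hk E hE hr hm

end Pool.Agent.Results.MP_43e44c_ag.LargePrimeFactor
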