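import Pool.Agent.H.MP_43e44c_ag.LowMain

/-!
Arbitrary CM fields: for almost all CM types the Hodge classes of low codimension or low dimension
on all powers of `A_Φ` are generated by divisor classes.
-/

set_option autoImplicit false

open NumberField Module Pool.MP43e44c

namespace Pool.MP43e44c.Variants.LowCodimension

/-- Let `K` be a CM field of degree `2n` and `P` a natural number.  At most
`(2n)^(2P) 2^(n - n/(2P))` of the `2^n` CM types `Φ` of `K` have a power `A_Φ^k` with a Hodge class
of codimension `p ≤ P`, or of dimension `n k - p ≤ P`, which is not a rational combination of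
products of divisor classes. -/
theorem result {K : Type*} [Field K] [NumberField K] [IsCMField K] {n : ℕ}
    (hn : finrank ℚ K = 2 * n) (P : ℕ) :
    ({Φ : Finset (K →+* ℂ) | IsCMType Φ ∧ ∃ k p : ℕ, min p (n * k - p) ≤ P ∧
      ¬ GeneratedByDivisors (cmLattice Φ k) p}.ncard : ℝ)
      ≤ (2 * n) ^ (2 * P) * 2 ^ ((n : ℝ) - n / (2 * P)) :=
  lowCount' hn P

end Pool.MP43e44c.Variants.LowCodimension
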