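import Pool.Agent.H.MP_43e44c_ag.OD.Fin
import Pool.Agent.H.MP_43e44c_ag.OD.Sext

/-!
The proportion of the CM types of a Galois CM field of odd half degree whose Hodge rings are not
generated by divisor classes, up to a constant factor and an arbitrarily small error.
-/

set_option autoImplicit false

open NumberField Module Pool.MP43e44c

namespace Pool.Agent.Results.MP_43e44c_ag.OddGalois

/-- The cubic subfields of `K`. -/
def cubicSubfields (K : Type*) [Field K] [NumberField K] : Set (IntermediateField ℚ K) :=
  {F | finrank ℚ F = 3}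

/-- The CM types `Φ` of `K` such that for some `k, p` some rational Hodge class of degree `2 p` on
`A_Φ^k` is not a rational combination of products of divisor classes. -/
def exoticTypes (K : Type*) [Field K] [NumberField K] : Set (Finset (K →+* ℂ)) :=
  {Φ | IsCMType Φ ∧ ¬ HodgeRingGeneratedByDivisors Φ}

/-- There are absolute constants `c, C > 0` such that for every `η > 0` there is an `n₀` such that for
all odd `n ≥ n₀` and all CM fields `K` of degree `2 n` which are Galois over the rationals the following
holds.  Let `t` be the number of cubic subfields of `K` and `B` the number of CM types `Φ` of `K` such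
that for some `k, p` some rational Hodge class of degree `2 p` on `A_Φ^k` is not a rational combination
of products of divisor classes.  Then `c min (1, t / n) 2 ^ n ≤ B ≤ (C t / n + η) 2 ^ n`. -/
theorem result.{u} : ∃ c C : ℝ, 0 < c ∧ 0 < C ∧ ∀ η : ℝ, 0 < η → ∃ n₀ : ℕ,
    ∀ {K : Type u} [Field K] [NumberField K] [IsCMField K] [IsGalois ℚ K] {n : ℕ},
    finrank ℚ K = 2 * n → Odd n → n₀ ≤ n →
    c * min 1 (((cubicSubfields K).ncard : ℝ) / n) * 2 ^ n ≤ ((exoticTypes K).ncard : ℝ) ∧
      ((exoticTypes K).ncard : ℝ) ≤ (C * (((cubicSubfields K).ncard : ℝ) / n) + η) * 2 ^ n := by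
  obtain ⟨C, hC, hup⟩ := OD.odd_upper
  refine ⟨1 / 62208, C, by norm_num, hC, ?_⟩
  intro η hη
  obtain ⟨n₀, hn₀⟩ := hup η hη
  refine ⟨max n₀ 648, ?_⟩
  intro K _ _ _ _ n hn hodd hnn
  have h1 := hn₀ hn hodd ((le_max_left _ _).trans hnn)
  have h648 : 648 ≤ n := (le_max_right _ _).trans hnn
  refine ⟨?_, h1.trans (le_of_eq (by rw [mul_div_assoc]; rfl))⟩
  have h2 := NA.gal_lower hn h648
  have h3 : ((cubicSubfields K).ncard : ℝ) ≤ (NA.fourSixG K).ncard := by
    exact_mod_cast OD.cubic_le_sext hn hodd
  have hnR : (0 : ℝ) < n := by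
    have : 0 < n := by omega
    exact_mod_cast this
  have h4 : min 1 (((cubicSubfields K).ncard : ℝ) / n) ≤
      min 1 ((evenImagQuadratic K).ncard / √n + (NA.fourSixG K).ncard / n) := by
    apply min_le_min_left
    have h5 : ((cubicSubfields K).ncard : ℝ) / n ≤ (NA.fourSixG K).ncard / n := by gcongr
    have h6 : (0 : ℝ) ≤ (evenImagQuadratic K).ncard / √n := by positivity
    linarith
  calc 1 / 62208 * min 1 (((cubicSubfields K).ncard : ℝ) / n) * 2 ^ n
      ≤ 1 / 62208 * min 1 ((evenImagQuadratic K).ncard / √n + (NA.fourSixG K).ncard / n) * 2 ^ n := by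
        gcongr
    _ ≤ _ := h2

end Pool.Agent.Results.MP_43e44c_ag.OddGalois
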