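import Pool.Agent.H.MP_43e44c_ag.Syl.Main

/-!
CM fields of degree a power of two whose discriminant is not a square: for every CM type `Φ` the
Hodge rings of all powers of the CM abelian variety `A_Φ` are generated by divisor classes.
-/

set_option autoImplicit false

open NumberField Module Pool.MP43e44c

namespace Pool.MP43e44c.Variants.PowerOfTwoDegree

theorem result (K : Type*) [Field K] [NumberField K] [IsCMField K] (k : ℕ)
    (hdeg : finrank ℚ K = 2 ^ k) (hdisc : ¬ IsSquare (discr K))
    (Φ : Finset (K →+* ℂ)) (hΦ : IsCMType Φ) : HodgeRingGeneratedByDivisors Φ :=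
  two_pow_generated hdeg hdisc hΦ

end Pool.MP43e44c.Variants.PowerOfTwoDegree
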