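import Pool.Agent.H.MP_43e44c_ag.PPField

/-!
CM fields of degree `2 ℓ ^ k`, `ℓ` an odd prime, with arbitrary Galois group.
-/

set_option autoImplicit false

open NumberField Module Finset Pool.MP43e44c

namespace Pool.MP43e44c.Variants.PrimePowerDegree

/-- Every CM field `K` of degree `2 ℓ ^ k`, `ℓ` an odd prime, has a CM type `Ψ` such that the Hodge
rings of all powers of `A_Φ` are generated by divisor classes for all CM types `Φ` with
`#(Φ ∩ Ψ)` prime to `ℓ`; if `K` contains an imaginary quadratic field `F` then `Ψ` is the set of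
embeddings of `K` inducing a given embedding of `F`. -/
theorem result {K : Type*} [Field K] [NumberField K] [IsCMField K] {ℓ k : ℕ} (hℓ : ℓ.Prime)
    (hodd : ℓ ≠ 2) (hk : k ≠ 0) (hK : finrank ℚ K = 2 * ℓ ^ k) :
    ∃ Ψ : Finset (K →+* ℂ), IsCMType Ψ ∧
      (∀ F : IntermediateField ℚ K, finrank ℚ F = 2 →
        (∃ x ∈ F, ∃ φ : K →+* ℂ, (φ x).im ≠ 0) →
        ∀ φ ∈ Ψ, ∀ ψ : K →+* ℂ, ψ ∈ Ψ ↔ ∀ x ∈ F, ψ x = φ x) ∧
      (∀ Φ : Finset (K →+* ℂ), IsCMType Φ →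
        ¬ ℓ ∣ ((Φ : Set (K →+* ℂ)) ∩ Ψ).ncard → HodgeRingGeneratedByDivisors Φ) ∧
      {Φ : Finset (K →+* ℂ) | IsCMType Φ ∧ ¬ HodgeRingGeneratedByDivisors Φ}.ncard
        ≤ ∑ a ∈ (range (ℓ ^ k + 1)).filter (fun a => ℓ ∣ a), (ℓ ^ k).choose a :=
  primePower hℓ hodd hk hK

end Pool.MP43e44c.Variants.PrimePowerDegree
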