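import Pool.Agent.H.MP_43e44c_ag.ClsField

/-!
CM fields whose real embeddings fall into small classes.
-/

set_option autoImplicit false

open NumberField Module Pool.MP43e44c

namespace Pool.Agent.H.MP_43e44c_ag.Variants.SmallClasses

/-- Let `K` be a CM field with maximal real subfield `K₀`, `θ ∈ K` purely imaginary and `2 b` the
number of embeddings `φ` of `K` such that `φ(θ) χ(θ)` lies in the Galois closure of `K₀`; it does
not depend on `θ` and `χ`.  If `b` is one, or a prime number, or a power of two while the
discriminant of `K` is not a square, then the Hodge rings of all powers of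
`A_Φ` are generated by divisor classes, for all CM types `Φ` of `K`. -/
theorem result {K : Type*} [Field K] [NumberField K] [IsCMField K] {b : ℕ}
    (hb : b = 1 ∨ b.Prime ∨ ((∃ j : ℕ, b = 2 ^ j) ∧ ¬ IsSquare (discr K))) {θ : K} (hθ0 : θ ≠ 0)
    (hθ : IsCMField.complexConj K θ = -θ) (χ : K →+* ℂ)
    (hcl : {φ : K →+* ℂ | φ θ * χ θ ∈
      IntermediateField.normalClosure ℚ (maximalRealSubfield K) ℂ}.ncard = 2 * b)
    (Φ : Finset (K →+* ℂ)) (hΦ : IsCMType Φ) : HodgeRingGeneratedByDivisors Φ :=
  all_types_of_small χ (ncard_cl_eq hθ0 hθ χ hcl χ) hb Φ hΦ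

end Pool.Agent.H.MP_43e44c_ag.Variants.SmallClasses
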