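import Pool.Agent.H.MP_43e44c_ag.ClsField

/-!
CM fields with nonsquare discriminant whose real embeddings fall into classes with a power of two
elements.
-/

set_option autoImplicit false

open NumberField Module Pool.MP43e44c

namespace Pool.Agent.H.MP_43e44c_ag.Variants.TwoPowerClasses

/-- Let `K` be a CM field with maximal real subfield `K₀`, `θ ∈ K` purely imaginary and suppose
that the number of embeddings `φ` of `K` such that `φ(θ) χ(θ)` lies in the Galois closure of `K₀`
is a power of two (e.g. that the degree of `K` is a power of two).  If the discriminant of `K` is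
not a square then the Hodge rings of all powers of `A_Φ` are generated by divisor classes, for all
CM types `Φ` of `K`. -/
theorem result {K : Type*} [Field K] [NumberField K] [IsCMField K] (hd : ¬ IsSquare (discr K))
    {θ : K} (hθ0 : θ ≠ 0) (hθ : IsCMField.complexConj K θ = -θ) (χ : K →+* ℂ) {j : ℕ}
    (hcl : {φ : K →+* ℂ | φ θ * χ θ ∈
      IntermediateField.normalClosure ℚ (maximalRealSubfield K) ℂ}.ncard = 2 ^ (j + 1))
    (Φ : Finset (K →+* ℂ)) (hΦ : IsCMType Φ) : HodgeRingGeneratedByDivisors Φ :=
  all_types_of_small χ (ncard_cl_eq hθ0 hθ χ (hcl.trans (pow_succ' 2 j)) χ)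
    (Or.inr (Or.inr ⟨⟨j, rfl⟩, hd⟩)) Φ hΦ

end Pool.Agent.H.MP_43e44c_ag.Variants.TwoPowerClasses
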